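import Mathlib

namespace Pool.Agent.Lib.MP_990519_co

open Finset

lemma seq_eq {t : ℕ} {f g : ℕ → ℝ} {V : Finset ℝ} (hV : V.card = t)
    (hf : ∀ s, s + 1 < t → f s < f (s + 1)) (hg : ∀ s, s + 1 < t → g s < g (s + 1))
    (fV : ∀ s, s < t → f s ∈ V) (gV : ∀ s, s < t → g s ∈ V) : ∀ s, s < t → f s = g s := by
  have mono : ∀ h : ℕ → ℝ, (∀ s, s + 1 < t → h s < h (s + 1)) →
      StrictMono (fun i : Fin t => h i) := by
    intro h hh
    cases t with
    | zero => intro i; exact i.elim0
    | succ t =>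
      rw [Fin.strictMono_iff_lt_succ]
      intro i
      simpa using hh i (by omega)
  have e1 := Finset.orderEmbOfFin_unique hV (f := fun i : Fin t => f i) (fun i => fV i i.2)
    (mono f hf)
  have e2 := Finset.orderEmbOfFin_unique hV (f := fun i : Fin t => g i) (fun i => gV i i.2)
    (mono g hg)
  intro s hs
  exact congrFun (e1.trans e2.symm) ⟨s, hs⟩

lemma card_ge {t : ℕ} {f : ℕ → ℝ} {V : Finset ℝ}
    (hf : ∀ s, s + 1 < t → f s < f (s + 1)) (fV : ∀ s, s < t → f s ∈ V) : t ≤ V.card := by
  have mono : StrictMono (fun i : Fin t => f i) := by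
    cases t with
    | zero => intro i; exact i.elim0
    | succ t =>
      rw [Fin.strictMono_iff_lt_succ]
      intro i
      simpa using hf i (by omega)
  have := Finset.card_le_card_of_injOn (s := (univ : Finset (Fin t))) (t := V)
    (fun i : Fin t => f i) (fun i _ => fV i i.2) (mono.injective.injOn)
  simpa using this

open Classical in
lemma cnt (I : Finset ℤ) (hI : I.Nonempty) (f : ℤ → ℝ)
    (hcl : ∀ a b c : ℤ, a ∈ I → b ∈ I → c ∈ I →
      a ≠ b → a ≠ c → b ≠ c → f a = f b → f a = f c → ∀ z ∈ I, f z ≤ f a) :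
    I.card + 2 ≤ (I.filter (fun j => ∀ z ∈ I, f z ≤ f j)).card + 2 * (I.image f).card := by
  obtain ⟨m, hm, hmax⟩ := exists_max_image I f hI
  have h1 := card_eq_sum_card_image f I
  have hr : f m ∈ I.image f := mem_image_of_mem _ hm
  rw [← add_sum_erase _ _ hr] at h1
  have h2 : ∑ v ∈ (I.image f).erase (f m), (I.filter (fun z => f z = v)).card ≤
      ((I.image f).erase (f m)).card • 2 := by
    apply sum_le_card_nsmul
    intro v hv
    by_contra h
    obtain ⟨x, y, z, hx, hy, hz, hxy, hxz, hyz⟩ := two_lt_card_iff.1 (not_le.1 h)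
    rw [mem_filter] at hx hy hz
    have := hcl x y z hx.1 hy.1 hz.1 hxy hxz hyz (by rw [hx.2, hy.2]) (by rw [hx.2, hz.2]) m hm
    have h3 := hmax x hx.1
    exact (mem_erase.1 hv).1 (by linarith [hx.2])
  rw [card_erase_of_mem hr, smul_eq_mul] at h2
  have h3 : 0 < (I.image f).card := card_pos.2 ⟨_, hr⟩
  have h4 : (I.filter (fun z => f z = f m)).card ≤
      (I.filter (fun j => ∀ z ∈ I, f z ≤ f j)).card := by
    apply card_le_card
    intro j hj
    rw [mem_filter] at hj ⊢
    exact ⟨hj.1, fun z hz => by rw [hj.2]; exact hmax z hz⟩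
  omega

open Classical in
theorem comb (n : ℕ) (hn : 3 ≤ n) (d : ℤ → ℤ → ℝ) (T F : ℕ)
    (per : ∀ i j : ℤ, d (i + n) (j + n) = d i j)
    (K : ∀ i j k l : ℤ, i < j → j < k → k < l → l < i + n → d j k + d i l < d i k + d j l)
    (hT : ∀ l : ℤ, ∑ i ∈ range n, ((Ioo (l + i) (l + i + n)).image (d (l + i))).card = T)
    (hF : ∀ l : ℤ, ∑ i ∈ range n, ((Ioo (l + i) (l + i + n)).filter
      (fun j => ∀ z ∈ Ioo (l + i) (l + i + n), d (l + i) z ≤ d (l + i) j)).card = F)
    (hFT : (n : ℤ) * n + n ≤ F + 2 * T) :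
    (n : ℤ) * n ≤ 2 * T + n ∧ ((n : ℤ) * n = 2 * T + n → ∃ τ : ℤ → ℤ, ∀ l : ℤ,
      1 ≤ τ l ∧ τ l + τ (l + 1) + 1 = n ∧ τ l ≤ τ (l + 1) + 1 ∧
      (∀ s : ℤ, 1 ≤ s → s ≤ τ l → d l (l + s) = d l (l + n - s)) ∧
      (∀ j : ℤ, l + τ l ≤ j → j ≤ l + 1 + τ (l + 1) → ∀ z ∈ Ioo l (l + n), d l z ≤ d l j)) := by
  have hn' : (3 : ℤ) ≤ n := by exact_mod_cast hn
  have ex : ∀ i : ℤ, ∃ a : ℤ, a ∈ Ioo i (i + n) ∧ (∀ z ∈ Ioo i (i + n), d i z ≤ d i a) ∧
      ∀ z ∈ Ioo i (i + n), z < a → d i z < d i a := by
    intro i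
    obtain ⟨m, hm, hmax⟩ := exists_max_image (Ioo i (i + n)) (d i)
      ⟨i + 1, by rw [mem_Ioo]; omega⟩
    have hne : ((Ioo i (i + n)).filter (fun z => d i z = d i m)).Nonempty :=
      ⟨m, by simp only [mem_filter]; exact ⟨hm, trivial⟩⟩
    have hmem := mem_filter.1 (min'_mem _ hne)
    refine ⟨min' _ hne, hmem.1, fun z hz => by rw [hmem.2]; exact hmax z hz, fun z hz hlt => ?_⟩
    rw [hmem.2]
    refine lt_of_le_of_ne (hmax z hz) (fun e => ?_)
    have := min'_le ((Ioo i (i + n)).filter (fun z => d i z = d i m)) z (mem_filter.2 ⟨hz, e⟩)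
    omega
  choose a ha1 ha2 ha3 using ex
  have ha1' : ∀ i, i < a i ∧ a i < i + n := fun i => mem_Ioo.1 (ha1 i)
  have aper : ∀ i, a (i + n) = a i + n := by
    intro i
    have h1 := ha1' i
    have h2 := ha1' (i + n)
    have m1 : a i + n ∈ Ioo (i + n) (i + n + n) := by rw [mem_Ioo]; omega
    have m2 : a (i + n) - n ∈ Ioo i (i + n) := by rw [mem_Ioo]; omega
    have e1 := per i (a i)
    have e2 := per i (a (i + n) - n)
    rw [sub_add_cancel] at e2
    have b1 := ha2 _ _ m1
    have b2 := ha2 _ _ m2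
    rcases lt_trichotomy (a (i + n)) (a i + n) with h | h | h
    · have := ha3 _ _ m2 (by omega); linarith
    · exact h
    · have := ha3 _ _ m1 h; linarith
  have stair : ∀ i b : ℤ, b ∈ Ioo i (i + n) → d i b = d i (a i) → a i ≤ b ∧ b ≤ a (i + 1) := by
    intro i b hb e
    have hb' := mem_Ioo.1 hb
    constructor
    · by_contra h
      have := ha3 i b hb (by omega); linarith
    · by_contra h
      have h2 := ha1' (i + 1)
      have k := K i (i + 1) (a (i + 1)) b (by omega) h2.1 (by omega) hb'.2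
      have b1 := ha2 i (a (i + 1)) (by rw [mem_Ioo]; omega)
      have b2 := ha2 (i + 1) b (by rw [mem_Ioo]; omega)
      linarith
  have amono : ∀ i, a i ≤ a (i + 1) := fun i => (stair i (a i) (ha1 i) rfl).2
  let t : ℤ → ℕ := fun i => ((Ioo i (i + n)).image (d i)).card
  let M : ℤ → Finset ℤ := fun i =>
    (Ioo i (i + n)).filter (fun j => ∀ z ∈ Ioo i (i + n), d i z ≤ d i j)
  have Mval : ∀ i z, z ∈ M i → d i z = d i (a i) := fun i z hz =>
    le_antisymm (ha2 i z (mem_filter.1 hz).1) ((mem_filter.1 hz).2 _ (ha1 i))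
  have Msub : ∀ i, M i ⊆ Icc (a i) (a (i + 1)) := fun i z hz =>
    mem_Icc.2 (stair i z (mem_filter.1 hz).1 (Mval i z hz))
  have Mcard : ∀ i, ((M i).card : ℤ) ≤ a (i + 1) - a i + 1 := by
    intro i
    have := card_le_card (Msub i)
    rw [Int.card_Icc] at this
    have := amono i
    omega
  have tele : ∀ l : ℤ, ∑ i ∈ range n, (a (l + i + 1) - a (l + i)) = n := by
    intro l
    have := sum_range_sub (fun i : ℕ => a (l + i)) n
    simp only [Nat.cast_add, Nat.cast_one, ← add_assoc, Nat.cast_zero, add_zero] at this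
    rw [this, aper]; ring
  have single : ∀ (e : ℤ → ℤ) (l : ℤ), (∀ i, 0 ≤ e i) → e l ≤ ∑ i ∈ range n, e (l + i) := by
    intro e l e0
    have := single_le_sum (f := fun i : ℕ => e (l + i)) (s := range n) (fun i _ => e0 _)
      (a := 0) (mem_range.2 (by omega))
    simpa using this
  let g : ℤ → ℤ := fun i => (a (i + 1) - a i) + 1 - (M i).card
  have g0 : ∀ i, 0 ≤ g i := fun i => by have := Mcard i; simp only [g]; omega
  have gsum : ∀ l : ℤ, ∑ i ∈ range n, g (l + i) = 2 * n - F := by
    intro l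
    have h2 : ∑ i ∈ range n, ((M (l + i)).card : ℤ) = F := by rw [← hF l]; push_cast; rfl
    simp only [g]
    rw [sum_sub_distrib, sum_add_distrib, tele, h2]
    simp; ring
  have hge : ∀ l : ℤ, g l ≤ 2 * n - F := fun l => gsum l ▸ single g l g0
  refine ⟨by have := hge 0; have := g0 0; omega, fun heq => ?_⟩
  have Meq : ∀ i, M i = Icc (a i) (a (i + 1)) := by
    intro i
    apply eq_of_subset_of_card_le (Msub i)
    have h1 := hge i
    have h3 := amono i
    rw [Int.card_Icc]
    simp only [g] at h1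
    omega
  have plat : ∀ i j : ℤ, a i ≤ j → j ≤ a (i + 1) → j < i + n ∧ d i j = d i (a i) := by
    intro i j h1 h2
    have : j ∈ M i := by rw [Meq]; exact mem_Icc.2 ⟨h1, h2⟩
    exact ⟨(mem_Ioo.1 (mem_filter.1 this).1).2, Mval i j this⟩
  have amono' : Monotone a := monotone_int_of_le_succ amono
  have row : ∀ j, ∃ i, a i ≤ j ∧ j + 1 ≤ a (i + 1) := by
    intro j
    obtain ⟨i, hi, hmax⟩ := Int.exists_greatest_of_bdd (P := fun i => a i ≤ j)
      ⟨j, fun z hz => by have := ha1' z; omega⟩ ⟨j - n, by have := ha1' (j - n); omega⟩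
    refine ⟨i, hi, ?_⟩
    by_contra h
    have := hmax (i + 1) (by omega)
    omega
  have up : ∀ l j : ℤ, l < j → j + 1 ≤ a l → d l j < d l (j + 1) := by
    intro l j h1 h2
    obtain ⟨i, hi1, hi2⟩ := row j
    have p1 := plat i j hi1 (by omega)
    have p2 := plat i (j + 1) (by omega) hi2
    have hil : i < l := by
      by_contra h
      have := amono' (not_lt.1 h); omega
    have k := K i l j (j + 1) hil h1 (by omega) p2.1
    linarith [p1.2, p2.2]
  have down : ∀ l j : ℤ, a (l + 1) ≤ j → j + 1 < l + n → d l (j + 1) < d l j := by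
    intro l j h1 h2
    obtain ⟨i, hi1, hi2⟩ := row j
    have p1 := plat i j hi1 (by omega)
    have p2 := plat i (j + 1) (by omega) hi2
    have hil : l < i := by
      by_contra h
      have := amono' (show i + 1 ≤ l + 1 by omega); omega
    have k := K l i j (j + 1) hil (by have := ha1' i; omega) (by omega) h2
    linarith [p1.2, p2.2]
  have tl : ∀ l : ℤ, a l - l ≤ t l := by
    intro l
    have := ha1' l
    have := card_ge (t := (a l - l).toNat) (f := fun s => d l (l + 1 + s))
      (V := (Ioo l (l + n)).image (d l))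
      (fun s hs => by
        have := up l (l + 1 + s) (by omega) (by omega)
        simpa [add_assoc] using this)
      (fun s hs => mem_image_of_mem _ (by rw [mem_Ioo]; omega))
    simp only [t]; omega
  have tr : ∀ l : ℤ, l + n - a (l + 1) ≤ t l := by
    intro l
    have := ha1' (l + 1)
    have := card_ge (t := (l + n - a (l + 1)).toNat) (f := fun s => d l (l + n - 1 - s))
      (V := (Ioo l (l + n)).image (d l))
      (fun s hs => by
        have := down l (l + n - 1 - (s + 1)) (by omega) (by omega)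
        have e1 : l + n - 1 - ((s : ℤ) + 1) + 1 = l + n - 1 - s := by ring
        rw [e1] at this
        simpa using this)
      (fun s hs => mem_image_of_mem _ (by rw [mem_Ioo]; omega))
    simp only [t]; omega
  let e : ℤ → ℤ := fun i => 2 * t i - n + (a (i + 1) - a i)
  have e0 : ∀ i, 0 ≤ e i := fun i => by have := tl i; have := tr i; simp only [e]; omega
  have esum : ∀ l : ℤ, ∑ i ∈ range n, e (l + i) = 2 * T + n - n * n := by
    intro l
    have h2 : ∑ i ∈ range n, (t (l + i) : ℤ) = T := by rw [← hT l]; push_cast; rfl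
    simp only [e]
    rw [sum_add_distrib, sum_sub_distrib, ← mul_sum, tele, h2]
    simp; ring
  have ez : ∀ l, e l = 0 := fun l => by
    have := single e l e0; have := esum l; have := e0 l; omega
  have te : ∀ l : ℤ, a l - l = t l ∧ l + n - a (l + 1) = t l := by
    intro l
    have h1 := tl l; have h2 := tr l; have h3 := ez l
    simp only [e] at h3
    omega
  refine ⟨fun l => a l - l, fun l => ?_⟩
  dsimp only
  refine ⟨by have := ha1' l; omega, by have := te l; omega,
    by have := amono l; omega, ?_, ?_⟩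
  · intro s h1 h2
    have h3 := te l
    have h4 := ha1' l
    have h5 := ha1' (l + 1)
    have := seq_eq (t := t l) (f := fun s => d l (l + 1 + s)) (g := fun s => d l (l + n - 1 - s))
      (V := (Ioo l (l + n)).image (d l)) rfl
      (fun s hs => by
        have := up l (l + 1 + s) (by omega) (by omega)
        simpa [add_assoc] using this)
      (fun s hs => by
        have := down l (l + n - 1 - (s + 1)) (by omega) (by omega)
        have e1 : l + n - 1 - ((s : ℤ) + 1) + 1 = l + n - 1 - s := by ring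
        rw [e1] at this
        simpa using this)
      (fun s hs => mem_image_of_mem _ (by rw [mem_Ioo]; omega))
      (fun s hs => mem_image_of_mem _ (by rw [mem_Ioo]; omega)) (s - 1).toNat (by omega)
    have e1 : l + 1 + ((s - 1).toNat : ℤ) = l + s := by omega
    have e2 : l + n - 1 - ((s - 1).toNat : ℤ) = l + n - s := by omega
    simpa only [e1, e2] using this
  · intro j h1 h2 z hz
    rw [(plat l j (by omega) (by omega)).2]
    exact ha2 l z hz

end Pool.Agent.Lib.MP_990519_co
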