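import Pool.Agent.Lib.MP_990519_co.Main

namespace Pool.Agent.Lib.MP_990519_co

open Finset

/-- Distinct points of a grid: their number is less than columns + rows + discordant pairs. -/
lemma grid (J : Finset ℤ) (hJ : J.Nonempty) (f g : ℤ → ℝ)
    (hinj : ∀ a ∈ J, ∀ b ∈ J, f a = f b → g a = g b → a = b) :
    J.card + 1 ≤ (J.image f).card + (J.image g).card +
      ((J ×ˢ J).filter (fun q => f q.2 < f q.1 ∧ g q.1 < g q.2)).card := by
  classical
  set A := J.filter (fun a => ∀ b ∈ J, f b = f a → g b ≤ g a) with hA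
  set B := J.filter (fun a => ∀ b ∈ J, g b = g a → f b ≤ f a) with hB
  have h1 : A.card ≤ (J.image f).card := by
    refine card_le_card_of_injOn f (fun a ha => ?_) (fun a ha b hb e => ?_)
    · exact mem_coe.2 (mem_image_of_mem f (mem_filter.1 ha).1)
    · have ha := mem_filter.1 ha
      have hb := mem_filter.1 hb
      exact hinj a ha.1 b hb.1 e (le_antisymm (hb.2 a ha.1 e) (ha.2 b hb.1 e.symm))
  have h2 : B.card ≤ (J.image g).card := by
    refine card_le_card_of_injOn g (fun a ha => ?_) (fun a ha b hb e => ?_)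
    · exact mem_coe.2 (mem_image_of_mem g (mem_filter.1 ha).1)
    · have ha := mem_filter.1 ha
      have hb := mem_filter.1 hb
      exact hinj a ha.1 b hb.1 (le_antisymm (hb.2 a ha.1 e) (ha.2 b hb.1 e.symm)) e
  have h3 : (A ∩ B).Nonempty := by
    obtain ⟨a, ha, hm⟩ := exists_max_image J (fun a => f a + g a) hJ
    refine ⟨a, mem_inter.2 ⟨mem_filter.2 ⟨ha, fun b hb e => ?_⟩,
      mem_filter.2 ⟨ha, fun b hb e => ?_⟩⟩⟩
    · have := hm b hb; linarith
    · have := hm b hb; linarith
  have h4 : (J \ (A ∪ B)).card ≤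
      ((J ×ˢ J).filter (fun q => f q.2 < f q.1 ∧ g q.1 < g q.2)).card := by
    refine card_le_card_of_forall_subsingleton (fun a q => f q.2 = f a ∧ g q.1 = g a) ?_ ?_
    · intro a ha
      obtain ⟨haJ, hn⟩ := mem_sdiff.1 ha
      rw [mem_union, not_or, mem_filter, mem_filter] at hn
      obtain ⟨n1, n2⟩ := hn
      push Not at n1 n2
      obtain ⟨P, hP, e1, l1⟩ := n1 haJ
      obtain ⟨R, hR, e2, l2⟩ := n2 haJ
      refine ⟨(R, P), mem_filter.2 ⟨mem_product.2 ⟨hR, hP⟩, ?_, ?_⟩, e1, e2⟩
      · simp only; linarith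
      · simp only; linarith
    · intro q _ a ha b hb
      exact hinj a (mem_sdiff.1 ha.1).1 b (mem_sdiff.1 hb.1).1 (ha.2.1.symm.trans hb.2.1)
        (ha.2.2.symm.trans hb.2.2)
  have h5 := card_union_add_card_inter A B
  have h6 := card_sdiff_add_card_eq_card
    (show A ∪ B ⊆ J from union_subset (filter_subset _ _) (filter_subset _ _))
  have h7 := h3.card_pos
  omega

/-- Class sizes: `2k ≤ 3 + C(k,2)` summed over the level sets of `f`. -/
lemma classes (K : Finset ℤ) (f : ℤ → ℝ) :
    2 * K.card ≤ 3 * (K.image f).card +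
      ((K ×ˢ K).filter (fun q => q.1 < q.2 ∧ f q.1 = f q.2)).card := by
  classical
  set r : ℤ → ℕ := fun w => (K.filter (fun v => v < w ∧ f v = f w)).card with hr
  have lt : ∀ v ∈ K, ∀ w ∈ K, v < w → f v = f w → r v < r w := by
    intro v hv w _ h e
    refine card_lt_card ⟨fun u hu => ?_, fun hs => ?_⟩
    · have hu := mem_filter.1 hu
      exact mem_filter.2 ⟨hu.1, hu.2.1.trans h, hu.2.2.trans e⟩
    · have := mem_filter.1 (hs (mem_filter.2 ⟨hv, h, e⟩))
      exact lt_irrefl _ this.2.1
  have lev : ∀ j : ℕ, (K.filter (fun w => r w = j)).card ≤ (K.image f).card := by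
    intro j
    refine card_le_card_of_injOn f (fun a ha => ?_) (fun a ha b hb e => ?_)
    · exact mem_coe.2 (mem_image_of_mem f (mem_filter.1 ha).1)
    · have ha := mem_filter.1 ha
      have hb := mem_filter.1 hb
      rcases lt_trichotomy a b with h | h | h
      · have := lt a ha.1 b hb.1 h e; omega
      · exact h
      · have := lt b hb.1 a ha.1 h e.symm; omega
  have sm : ((K ×ˢ K).filter (fun q => q.1 < q.2 ∧ f q.1 = f q.2)).card = ∑ w ∈ K, r w := by
    rw [card_filter, sum_product_right]
    refine sum_congr rfl fun w _ => ?_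
    simp only [hr, card_filter]
  have h0 := lev 0
  have h1 := lev 1
  rw [card_filter] at h0 h1
  have : ∑ w ∈ K, 2 ≤ ∑ w ∈ K, (r w + 2 * (if r w = 0 then 1 else 0) +
      (if r w = 1 then 1 else 0)) := by
    refine sum_le_sum fun w _ => ?_
    split_ifs <;> omega
  rw [sum_add_distrib, sum_add_distrib, ← mul_sum, sum_const, smul_eq_mul] at this
  omega

theorem five (n : ℕ) (hn : 3 ≤ n) (d : ℤ → ℤ → ℝ) (T : ℕ)
    (per : ∀ i j : ℤ, d (i + n) (j + n) = d i j)
    (kal : ∀ i j k l : ℤ, i < j → j < k → k < l → l < i + n → d j k + d i l < d i k + d j l)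
    (hsum : ∀ l : ℤ, ∑ i ∈ range n,
      ((Ioo (l + i) (l + i + n)).image (fun j => d (l + i) j)).card = T) :
    2 * n * n ≤ 5 * T + n := by
  classical
  set E : ℤ → ℤ → ℤ → Prop := fun y v w =>
    d y v = d y w ∨ (y + 1 < v ∧ d y w < d y v ∧ d (y + 1) v < d (y + 1) w) with hE
  have uq : ∀ y y' v w : ℤ, y < y' → y' < v → v < w → w < y + n → E y v w → E y' v w →
      False := by
    intro y y' v w h1 h2 h3 h4 e1 e2
    have a1 := kal y y' v w h1 h2 h3 h4
    have a2 : d y' w ≤ d y' v := by
      rcases e2 with e2 | e2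
      · exact e2.ge
      · exact e2.2.1.le
    rcases e1 with e1 | e1
    · linarith
    · rcases (show y + 1 = y' ∨ y + 1 < y' by omega) with h | h
      · rw [h] at e1; linarith [e1.2.2]
      · have := kal (y + 1) y' v w h h2 h3 (by omega)
        linarith [e1.2.2]
  have sh : ∀ y v w : ℤ, E y v w → E (y + n) (v + n) (w + n) := by
    intro y v w e
    simp only [hE] at e ⊢
    rw [show y + n + 1 = y + 1 + n by ring]
    simp only [per]
    rcases e with e | e
    · exact Or.inl e
    · exact Or.inr ⟨by omega, e.2⟩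
  set ev : ℤ → Finset (ℤ × ℤ) := fun y =>
    (Ioo y (y + n) ×ˢ Ioo y (y + n)).filter (fun q => q.1 < q.2 ∧ E y q.1 q.2) with hev
  have tot : ∑ i ∈ range n, (ev i).card ≤ n * (n - 2) := by
    rw [← card_sigma]
    have : n * (n - 2) = (Ico (0 : ℤ) n ×ˢ Ioo (0 : ℤ) (n - 1)).card := by
      rw [card_product, Int.card_Ico, Int.card_Ioo]; congr 1 <;> omega
    rw [this]
    refine card_le_card_of_injOn
      (fun z => (if z.2.1 < n then z.2.1 else z.2.1 - n, z.2.2 - z.2.1)) ?_ ?_
    · rintro ⟨i, v, w⟩ hz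
      simp only [coe_sigma, Set.mem_sigma_iff, mem_coe, mem_range, hev, mem_filter,
        mem_product, mem_Ioo, mem_Ico] at hz ⊢
      split_ifs <;> omega
    · rintro ⟨i, v, w⟩ hz ⟨i', v', w'⟩ hz' e
      simp only [coe_sigma, Set.mem_sigma_iff, mem_coe, mem_range, hev, mem_filter,
        mem_product, mem_Ioo, Prod.mk.injEq] at hz hz' e
      obtain ⟨a1, ⟨a2, a3⟩, a4, a5⟩ := hz
      obtain ⟨b1, ⟨b2, b3⟩, b4, b5⟩ := hz'
      obtain ⟨e1, e2⟩ := e
      have c : v = v' ∨ v = v' + n ∨ v' = v + n := by split_ifs at e1 <;> omega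
      rcases c with rfl | rfl | rfl
      · obtain rfl : w = w' := by omega
        rcases lt_trichotomy i i' with h | rfl | h
        · exact (uq i i' v w (by omega) (by omega) a4 (by omega) a5 b5).elim
        · rfl
        · exact (uq i' i v w (by omega) (by omega) a4 (by omega) b5 a5).elim
      · obtain rfl : w = w' + n := by omega
        exact (uq i (i' + n) _ _ (by omega) (by omega) a4 (by omega) a5 (sh _ _ _ b5)).elim
      · obtain rfl : w' = w + n := by omega
        exact (uq i' (i + n) _ _ (by omega) (by omega) b4 (by omega) b5 (sh _ _ _ a5)).elim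
  have loc : ∀ y : ℤ, 3 * n ≤ 4 * ((Ioo y (y + n)).image (fun j => d y j)).card +
      ((Ioo (y + 1) (y + 1 + n)).image (fun j => d (y + 1) j)).card + (ev y).card + 3 := by
    intro y
    have g1 := grid (Ioo (y + 1) (y + n)) ⟨y + 2, by rw [mem_Ioo]; omega⟩ (fun j => d y j)
      (fun j => d (y + 1) j) (fun a ha b hb e1 e2 => by
        rw [mem_Ioo] at ha hb
        rcases lt_trichotomy a b with h | h | h
        · have := kal y (y + 1) a b (by omega) ha.1 h hb.2; linarith
        · exact h
        · have := kal y (y + 1) b a (by omega) hb.1 h ha.2; linarith)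
    have g2 := classes (Ioo y (y + n)) (fun j => d y j)
    have g3 : ((Ioo (y + 1) (y + n)).image (fun j => d y j)).card ≤
        ((Ioo y (y + n)).image (fun j => d y j)).card :=
      card_le_card (image_subset_image (Ioo_subset_Ioo_left (by omega)))
    have g4 : ((Ioo (y + 1) (y + n)).image (fun j => d (y + 1) j)).card ≤
        ((Ioo (y + 1) (y + 1 + n)).image (fun j => d (y + 1) j)).card :=
      card_le_card (image_subset_image (Ioo_subset_Ioo_right (by omega)))
    have g5 : ((Ioo (y + 1) (y + n) ×ˢ Ioo (y + 1) (y + n)).filter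
          (fun q => d y q.2 < d y q.1 ∧ d (y + 1) q.1 < d (y + 1) q.2)).card +
        ((Ioo y (y + n) ×ˢ Ioo y (y + n)).filter
          (fun q => q.1 < q.2 ∧ d y q.1 = d y q.2)).card ≤ (ev y).card := by
      rw [← card_union_of_disjoint]
      · refine card_le_card (union_subset ?_ ?_)
        · rintro ⟨v, w⟩ hq
          simp only [hev, hE, mem_filter, mem_product, mem_Ioo] at hq ⊢
          obtain ⟨⟨a1, a2⟩, a3, a4⟩ := hq
          refine ⟨by omega, ?_, Or.inr ⟨a1.1, a3, a4⟩⟩
          rcases lt_trichotomy v w with h | rfl | h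
          · exact h
          · exact absurd a3 (lt_irrefl _)
          · have := kal y (y + 1) w v (by omega) a2.1 h a1.2; linarith
        · rintro ⟨v, w⟩ hq
          simp only [hev, hE, mem_filter] at hq ⊢
          exact ⟨hq.1, hq.2.1, Or.inl hq.2.2⟩
      · rw [disjoint_left]
        intro q h1 h2
        have h1 := (mem_filter.1 h1).2.1
        have h2 := (mem_filter.1 h2).2.2
        linarith
    rw [Int.card_Ioo] at g1 g2
    omega
  have s0 := hsum 0
  have s1 := hsum 1
  simp only [zero_add] at s0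
  simp only [add_comm (1 : ℤ)] at s1
  have := sum_le_sum (s := range n) (fun (i : ℕ) _ => loc i)
  simp only [sum_add_distrib, ← mul_sum, sum_const, card_range, smul_eq_mul] at this
  rw [s0, s1] at this
  obtain ⟨m, rfl⟩ : ∃ m, n = m + 2 := ⟨n - 2, by omega⟩
  simp only [Nat.add_sub_cancel] at tot
  nlinarith

end Pool.Agent.Lib.MP_990519_co
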