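import Pool.Agent.Lib.MP_990519_co.Order

namespace Pool.Agent.Lib.MP_990519_co

open Complex

lemma unit_eq {a b : ℂ} (ha : ‖a‖ = 1) (hb : ‖b‖ = 1) (ha' : 0 < a.im) (hb' : 0 < b.im)
    (h : ‖1 + a‖ = ‖1 + b‖) : a = b := by
  have e1 := Complex.sq_norm a
  have e2 := Complex.sq_norm b
  have e3 := Complex.sq_norm (1 + a)
  have e4 := Complex.sq_norm (1 + b)
  rw [ha] at e1; rw [hb] at e2; rw [h, e4] at e3
  simp only [normSq_apply, add_re, add_im, one_re, one_im] at e1 e2 e3
  have hre : a.re = b.re := by nlinarith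
  have him : (a.im - b.im) * (a.im + b.im) = 0 := by rw [hre] at e1; nlinarith
  rcases mul_eq_zero.1 him with h1 | h1
  · exact Complex.ext hre (by linarith)
  · linarith

lemma const_of_succ {α : Type} (f : ℤ → α) (h : ∀ l, f (l + 1) = f l) (l : ℤ) : f l = f 0 := by
  induction l using Int.induction_on with
  | zero => rfl
  | succ i ih => rw [h, ih]
  | pred i ih => rw [← ih, ← h]; congr 1; ring

lemma rot (n : ℕ) (hn : 3 ≤ n) (p : ℤ → ℂ) (per : ∀ i : ℤ, p (i + n) = p i)
    (inj : ∀ i j : ℤ, i < j → j < i + n → p i ≠ p j)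
    (ho : ∀ i j k : ℤ, i < j → j < k → k < i + n → 0 < ori (p i) (p j) (p k))
    (s1 : ∀ l, dist (p l) (p (l + 1)) = dist (p (l + 1)) (p (l + 2)))
    (s2 : ∀ l, dist (p l) (p (l + 2)) = dist (p (l + 2)) (p (l + 4))) :
    ∃ c ω : ℂ, ‖ω‖ = 1 ∧ (∀ l, p l ≠ c) ∧ ∀ l, p (l + 2) - c = ω * (p l - c) := by
  have hn' : (3 : ℤ) ≤ n := by exact_mod_cast hn
  set u : ℤ → ℂ := fun l => p (l + 1) - p l with hu
  have u0 : ∀ l, u l ≠ 0 := fun l => sub_ne_zero.2 (inj l (l + 1) (by omega) (by omega)).symm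
  have un : ∀ l, ‖u (l + 1)‖ = ‖u l‖ := by
    intro l
    have := s1 l
    rw [dist_comm (p l), dist_comm (p (l + 1)) (p (l + 2)), dist_eq, dist_eq] at this
    simp only [hu, add_assoc, one_add_one_eq_two]; exact this.symm
  set w : ℤ → ℂ := fun l => u (l + 1) / u l with hw
  have uw : ∀ l, u (l + 1) = w l * u l := fun l => by simp only [hw]; field_simp [u0 l]
  have wn : ∀ l, ‖w l‖ = 1 := fun l => by
    simp only [hw]; rw [norm_div, un, div_self (norm_ne_zero_iff.2 (u0 l))]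
  have p2 : ∀ l, p (l + 2) - p l = (1 + w l) * u l := by
    intro l
    have := uw l
    simp only [hu, add_assoc, one_add_one_eq_two] at this ⊢
    linear_combination this
  have wi : ∀ l, 0 < (w l).im := by
    intro l
    have h := ho l (l + 1) (l + 2) (by omega) (by omega) (by omega)
    have e : ori (p l) (p (l + 1)) (p (l + 2)) = normSq (u l) * (w l).im := by
      have a1 := congrArg re (p2 l)
      have a2 := congrArg im (p2 l)
      have a3 : (p (l + 1)).re - (p l).re = (u l).re := by simp [hu]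
      have a4 : (p (l + 1)).im - (p l).im = (u l).im := by simp [hu]
      simp only [sub_re, sub_im] at a1 a2
      unfold ori
      rw [a1, a2, a3, a4, normSq_apply]
      simp only [mul_re, mul_im, add_re, add_im, one_re, one_im]; ring
    rw [e] at h
    exact (mul_pos_iff_of_pos_left (normSq_pos.2 (u0 l))).1 h
  have w2 : ∀ l, w (l + 2) = w l := by
    intro l
    apply unit_eq (wn _) (wn _) (wi _) (wi _)
    have h := s2 l
    have e : l + 4 = l + 2 + 2 := by ring
    rw [dist_comm, dist_comm (p (l + 2)) (p (l + 4)), dist_eq, dist_eq, e, p2, p2, norm_mul,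
      norm_mul] at h
    have h2 : ‖u (l + 2)‖ = ‖u l‖ := by
      rw [← un l, ← un (l + 1)]; congr 2; ring
    rw [h2] at h
    exact (mul_right_cancel₀ (norm_ne_zero_iff.2 (u0 l)) h).symm
  have hω : ∀ l, w l * w (l + 1) = w 0 * w (0 + 1) :=
    const_of_succ (fun l => w l * w (l + 1)) (fun l => by
      simp only [add_assoc, one_add_one_eq_two, w2]; ring)
  set ω := w 0 * w (0 + 1) with hωd
  have hg : ∀ l, p (l + 2) - ω * p l = p (0 + 2) - ω * p 0 :=
    const_of_succ (fun l => p (l + 2) - ω * p l) (fun l => by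
      have h1 := uw (l + 1)
      rw [uw l] at h1
      have h2 := hω l
      have e1 : l + 2 + 1 = l + 1 + 2 := by ring
      have e2 : l + 1 + 1 = l + 2 := by ring
      simp only [hu, e1, e2] at h1 ⊢
      linear_combination h1 + (p (l + 1) - p l) * h2)
  set g := p (0 + 2) - ω * p 0 with hgd
  have ω1 : ω ≠ 1 := by
    intro h
    have st : ∀ j : ℕ, p (2 * j) = p 0 + j * g := by
      intro j
      induction j with
      | zero => simp
      | succ j ih =>
        have := hg (2 * j)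
        rw [h] at this
        have e : (2 * ((j + 1 : ℕ) : ℤ)) = 2 * j + 2 := by push_cast; ring
        rw [e]; push_cast; linear_combination this + ih
    have h1 := st n
    have e : (2 * (n : ℤ)) = 0 + n + n := by ring
    rw [e, per, per] at h1
    have h2 : (n : ℂ) * g = 0 := by linear_combination -h1
    have h3 : g = 0 := (mul_eq_zero.1 h2).resolve_left (by exact_mod_cast (by omega : n ≠ 0))
    apply inj 0 (0 + 2) (by omega) (by omega)
    rw [hgd, h] at h3
    linear_combination -h3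
  have ω1' : 1 - ω ≠ 0 := sub_ne_zero.2 ω1.symm
  have key : ∀ l, p (l + 2) - g / (1 - ω) = ω * (p l - g / (1 - ω)) := by
    intro l
    have := hg l
    field_simp
    linear_combination (1 - ω) * this
  refine ⟨g / (1 - ω), ω, by rw [hωd, norm_mul, wn, wn, one_mul], fun l hl => ?_, key⟩
  have := key l
  rw [hl, sub_self, mul_zero, ← hl] at this
  exact inj l (l + 2) (by omega) (by omega) (sub_eq_zero.1 this).symm

lemma root_mem {k : ℕ} (hk : 1 ≤ k) {z : ℂ} (hz : z ^ k = 1) : z ∈ Set.range (fun j : Fin k =>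
    Complex.exp (2 * (Real.pi : ℂ) * Complex.I * (((j : ℕ) : ℂ)) / (k : ℂ))) := by
  haveI : NeZero k := ⟨by omega⟩
  obtain ⟨i, hi, e⟩ := (Complex.isPrimitiveRoot_exp k (by omega)).eq_pow_of_pow_eq_one hz
  refine ⟨⟨i, hi⟩, ?_⟩
  rw [← e, ← Complex.exp_nat_mul]
  simp only
  congr 1; ring

lemma root_mem' {k : ℕ} (hk : 1 ≤ k) {t : ℝ} (ht : 0 < t) {z : ℂ} (hz : z ^ k = -(t : ℂ) ^ k) :
    z ∈ Set.range (fun j : Fin k => (t : ℂ) *
      Complex.exp ((2 * (((j : ℕ) : ℂ)) + 1) * (Real.pi : ℂ) * Complex.I / (k : ℂ))) := by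
  have hk0 : (k : ℂ) ≠ 0 := by exact_mod_cast (by omega : k ≠ 0)
  have ht0 : (t : ℂ) ≠ 0 := by exact_mod_cast ht.ne'
  set E := Complex.exp ((Real.pi : ℂ) * Complex.I / (k : ℂ)) with hE
  have E0 : E ≠ 0 := Complex.exp_ne_zero _
  have Ek : E ^ k = -1 := by
    rw [hE, ← Complex.exp_nat_mul, ← Complex.exp_pi_mul_I]; congr 1; field_simp
  obtain ⟨j, hj⟩ := root_mem hk (z := z / (t * E)) (by
    rw [div_pow, mul_pow, Ek, hz]; field_simp)
  refine ⟨j, ?_⟩
  have e : (2 * (((j : ℕ) : ℂ)) + 1) * (Real.pi : ℂ) * Complex.I / (k : ℂ) =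
      2 * (Real.pi : ℂ) * Complex.I * (((j : ℕ) : ℂ)) / (k : ℂ) +
        (Real.pi : ℂ) * Complex.I / (k : ℂ) := by ring
  simp only at hj ⊢
  rw [e, Complex.exp_add, hj, ← hE]; field_simp

lemma range_eq {k : ℕ} {f g : Fin k → ℂ} (hf : Function.Injective f)
    (h : ∀ j, f j ∈ Set.range g) : Set.range f = Set.range g := by
  choose σ hσ using h
  have hs : Function.Injective σ := fun a b e => hf (by rw [← hσ a, ← hσ b, e])
  have hs' := Finite.injective_iff_surjective.1 hs
  ext z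
  constructor
  · rintro ⟨j, rfl⟩; exact ⟨σ j, hσ j⟩
  · rintro ⟨j, rfl⟩; obtain ⟨i, rfl⟩ := hs' j; exact ⟨i, (hσ i).symm⟩

lemma sim (c v : ℂ) (hv : v ≠ 0) : 0 < ‖v‖⁻¹ ∧
    ∀ a b : ℂ, dist ((a - c) / v) ((b - c) / v) = ‖v‖⁻¹ * dist a b := by
  refine ⟨inv_pos.2 (norm_pos_iff.2 hv), fun a b => ?_⟩
  rw [dist_eq, dist_eq, ← sub_div, norm_div, sub_sub_sub_cancel_right]; ring

lemma pow_step {P : ℤ → ℂ} {ω : ℂ} (h : ∀ l, P (l + 2) = ω * P l) (j : ℕ) (s : ℤ) :
    P (2 * j + s) = ω ^ j * P s := by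
  induction j with
  | zero => simp
  | succ j ih =>
    have e : (2 * ((j + 1 : ℕ) : ℤ) + s) = 2 * j + s + 2 := by push_cast; ring
    rw [e, h, ih]; ring

/-- odd case, normalised -/
lemma odd_case (n : ℕ) (hn : Odd n) (P : ℤ → ℂ) (ω : ℂ) (per : ∀ i : ℤ, P (i + n) = P i)
    (inj : ∀ i j : ℤ, i < j → j < i + n → P i ≠ P j) (P0 : P 0 = 1)
    (h : ∀ l, P (l + 2) = ω * P l) :
    Set.range (fun j : Fin n => P ((j : ℕ) : ℤ)) = Set.range (fun j : Fin n =>
      Complex.exp (2 * (Real.pi : ℂ) * Complex.I * (((j : ℕ) : ℂ)) / (n : ℂ))) := by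
  have hω : ω ^ n = 1 := by
    have := pow_step h n 0
    have e : (2 * (n : ℤ) + 0) = 0 + n + n := by ring
    rw [e, per, per, P0, mul_one] at this; exact this.symm
  have pw : ∀ m : ℕ, P (2 * m) ^ n = 1 := by
    intro m
    have := pow_step h m 0
    rw [add_zero, P0, mul_one] at this
    rw [this, ← pow_mul, mul_comm, pow_mul, hω, one_pow]
  apply range_eq
  · intro a b e
    by_contra hab
    rcases lt_or_gt_of_ne hab with h1 | h1
    · exact inj _ _ (by exact_mod_cast h1) (by have := b.2; omega) e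
    · exact inj _ _ (by exact_mod_cast h1) (by have := a.2; omega) e.symm
  · intro j
    apply root_mem hn.pos
    obtain ⟨r, hr⟩ := hn
    rcases Nat.even_or_odd' (j : ℕ) with ⟨m, hm | hm⟩
    · have e : ((j : ℕ) : ℤ) = 2 * (m : ℕ) := by omega
      simp only [e]; exact pw m
    · have e : ((j : ℕ) : ℤ) + n = 2 * ((m + r + 1 : ℕ) : ℤ) := by push_cast; omega
      rw [← per, e]; exact pw _

/-- even case, normalised -/
lemma even_case (k : ℕ) (hk : 3 ≤ k) (P : ℤ → ℂ) (ω : ℂ) (hω1 : ‖ω‖ = 1)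
    (per : ∀ i : ℤ, P (i + (2 * k : ℕ)) = P i)
    (cover : ∀ s : ℤ, ∃ i : ℤ, 0 ≤ i ∧ i < (2 * k : ℕ) ∧ P i = P s)
    (inj : ∀ i j : ℤ, i < j → j < i + (2 * k : ℕ) → P i ≠ P j) (P0 : P 0 = 1)
    (h : ∀ l, P (l + 2) = ω * P l) (s1 : dist (P 0) (P 1) = dist (P 1) (P 2))
    (pl : ∀ j : ℤ, k - 1 ≤ j → j ≤ k → ∀ z : ℤ, 0 < z → z < (2 * k : ℕ) →
      dist (P 0) (P z) ≤ dist (P 0) (P j)) :
    ∃ t : ℝ, 0 < t ∧
        (∀ j : Fin k,
          ‖(t : ℂ) * Complex.exp ((Real.pi : ℂ) * Complex.I / (k : ℂ)) -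
              Complex.exp (2 * (Real.pi : ℂ) * Complex.I * (((j : ℕ) : ℂ)) / (k : ℂ))‖ ≤
            Metric.diam (Set.range (fun i : Fin k =>
              Complex.exp (2 * (Real.pi : ℂ) * Complex.I * (((i : ℕ) : ℂ)) / (k : ℂ))))) ∧
        (∃ j : Fin k,
          ‖(t : ℂ) * Complex.exp ((Real.pi : ℂ) * Complex.I / (k : ℂ)) -
              Complex.exp (2 * (Real.pi : ℂ) * Complex.I * (((j : ℕ) : ℂ)) / (k : ℂ))‖ =
            Metric.diam (Set.range (fun i : Fin k =>
              Complex.exp (2 * (Real.pi : ℂ) * Complex.I * (((i : ℕ) : ℂ)) / (k : ℂ))))) ∧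
          Set.range P =
            Set.range (fun j : Fin k =>
              Complex.exp (2 * (Real.pi : ℂ) * Complex.I * (((j : ℕ) : ℂ)) / (k : ℂ))) ∪
            Set.range (fun j : Fin k => (t : ℂ) *
              Complex.exp ((2 * (((j : ℕ) : ℂ)) + 1) * (Real.pi : ℂ) * Complex.I / (k : ℂ))) := by
  have hk1 : 1 ≤ k := by omega
  have ev : ∀ j : ℕ, P (2 * j) = ω ^ j := fun j => by
    have := pow_step h j 0
    rwa [add_zero, P0, mul_one] at this
  have hωk : ω ^ k = 1 := by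
    have := per 0
    rw [P0, zero_add] at this
    rw [← ev, ← this]; congr 1
  set γ := P 1 with hγ
  have od : ∀ j : ℕ, P (2 * j + 1) = ω ^ j * γ := fun j => pow_step h j 1
  have P2 : P 2 = ω := by simpa using ev 1
  have ω1 : ω ≠ 1 := fun e => inj 0 2 (by omega) (by omega) (by rw [P0, P2, e])
  have γ0 : γ ≠ 0 := by
    intro e
    apply inj 1 (1 + 2) (by omega) (by omega)
    rw [h, ← hγ, e, mul_zero]
  set t := ‖γ‖ with ht
  have t0 : 0 < t := norm_pos_iff.2 γ0
  have tc : (t : ℂ) ≠ 0 := by exact_mod_cast t0.ne'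
  have cω : ω * (starRingEnd ℂ) ω = 1 := by
    rw [Complex.mul_conj, Complex.normSq_eq_norm_sq, hω1]; simp
  have cγ : γ * (starRingEnd ℂ) γ = (t : ℂ) ^ 2 := by
    rw [Complex.mul_conj, Complex.normSq_eq_norm_sq]; simp [ht]
  have sq : γ ^ 2 = (t : ℂ) ^ 2 * ω := by
    rw [P0, P2, dist_eq, dist_eq] at s1
    have a1 := Complex.mul_conj (1 - γ)
    have a2 := Complex.mul_conj (γ - ω)
    rw [Complex.normSq_eq_norm_sq] at a1 a2
    rw [s1, ← a2] at a1
    simp only [map_sub, map_one] at a1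
    have a3 : (ω - 1) * (γ - (starRingEnd ℂ) γ * ω) = 0 := by
      linear_combination (-ω) * a1 + (γ - ω) * cω
    have a4 := (mul_eq_zero.1 a3).resolve_left (sub_ne_zero.2 ω1)
    linear_combination γ * a4 + ω * cγ
  have γk : γ ^ k = -(t : ℂ) ^ k := by
    have a1 : (γ ^ k - (t : ℂ) ^ k) * (γ ^ k + (t : ℂ) ^ k) = 0 := by
      have : (γ ^ 2) ^ k = ((t : ℂ) ^ 2) ^ k := by rw [sq, mul_pow, hωk, mul_one]
      rw [← pow_mul, ← pow_mul, mul_comm 2 k, pow_mul, pow_mul] at this
      linear_combination this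
    rcases mul_eq_zero.1 a1 with a2 | a2
    · exfalso
      rcases Nat.even_or_odd' k with ⟨m, hm | hm⟩
      · apply inj 0 (2 * (m : ℕ)) (by omega) (by omega)
        rw [P0, ev]
        rw [hm, pow_mul, sq, mul_pow, pow_mul] at a2
        have : ((t : ℂ) ^ 2) ^ m * (ω ^ m - 1) = 0 := by linear_combination a2
        exact (sub_eq_zero.1 ((mul_eq_zero.1 this).resolve_left (by positivity))).symm
      · have b1 : ω ^ m * γ = t := by
          rw [hm, pow_succ, pow_succ, pow_mul, sq, mul_pow, pow_mul] at a2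
          have : ((t : ℂ) ^ 2) ^ m * (ω ^ m * γ - t) = 0 := by linear_combination a2
          exact sub_eq_zero.1 ((mul_eq_zero.1 this).resolve_left (by positivity))
        have b2 := pl (2 * (m : ℕ) + 1) (by omega) (by omega) 1 (by omega) (by omega)
        rw [od, b1, P0, dist_eq, dist_eq] at b2
        have b3 : ‖1 - γ‖ ^ 2 ≤ ‖1 - (t : ℂ)‖ ^ 2 := pow_le_pow_left₀ (norm_nonneg _) b2 2
        have b4 : t ^ 2 = normSq γ := Complex.sq_norm γ
        rw [Complex.sq_norm, Complex.sq_norm] at b3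
        simp only [normSq_apply, sub_re, sub_im, one_re, one_im, ofReal_re, ofReal_im] at b3 b4
        have b5 : t ≤ γ.re := by nlinarith
        have b6 : γ.im = 0 := by nlinarith
        have b7 : γ.re = t := by
          have : (γ.re - t) * (γ.re + t) = 0 := by rw [b6] at b4; linarith
          rcases mul_eq_zero.1 this with x | x <;> linarith
        have b8 : γ = t := Complex.ext (by simpa using b7) (by simpa using b6)
        rw [b8] at sq
        apply ω1
        have : (t : ℂ) ^ 2 * (ω - 1) = 0 := by linear_combination -sq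
        exact sub_eq_zero.1 ((mul_eq_zero.1 this).resolve_left (by positivity))
    · linear_combination a2
  have pwk : ∀ j : ℕ, (ω ^ j) ^ k = 1 := fun j => by
    rw [← pow_mul, mul_comm, pow_mul, hωk, one_pow]
  set R := Set.range (fun i : Fin k =>
    Complex.exp (2 * (Real.pi : ℂ) * Complex.I * (((i : ℕ) : ℂ)) / (k : ℂ))) with hR
  set Y := Set.range (fun j : Fin k => (t : ℂ) *
    Complex.exp ((2 * (((j : ℕ) : ℂ)) + 1) * (Real.pi : ℂ) * Complex.I / (k : ℂ))) with hY
  have mX : ∀ j : ℕ, P (2 * j) ∈ R := fun j => by rw [ev]; exact root_mem hk1 (pwk j)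
  have mY : ∀ j : ℕ, P (2 * j + 1) ∈ Y := fun j => by
    rw [od]; exact root_mem' hk1 t0 (by rw [mul_pow, pwk, one_mul, γk])
  have hX : Set.range (fun j : Fin k => P (2 * (j : ℕ))) = R := by
    refine range_eq (fun a b e => ?_) (fun j => mX j)
    by_contra hab
    rcases lt_or_gt_of_ne hab with h1 | h1
    · exact inj _ _ (by have : (a : ℕ) < b := h1; omega) (by have := b.2; omega) e
    · exact inj _ _ (by have : (b : ℕ) < a := h1; omega) (by have := a.2; omega) e.symm
  have hY' : Set.range (fun j : Fin k => P (2 * (j : ℕ) + 1)) = Y := by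
    refine range_eq (fun a b e => ?_) (fun j => mY j)
    by_contra hab
    rcases lt_or_gt_of_ne hab with h1 | h1
    · exact inj _ _ (by have : (a : ℕ) < b := h1; omega) (by have := b.2; omega) e
    · exact inj _ _ (by have : (b : ℕ) < a := h1; omega) (by have := a.2; omega) e.symm
  set r := dist (P 0) (P k) with hr
  have rotd : ∀ (j : ℕ) (s : ℤ), dist (P (2 * j)) (P (2 * j + s)) = dist (P 0) (P s) := by
    intro j s
    rw [pow_step h, ev, P0, dist_eq, dist_eq, ← mul_one_sub, norm_mul, norm_pow, hω1]; simp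
  have ler : ∀ (j : ℕ) (s : ℤ), dist (P (2 * j)) (P s) ≤ r := by
    intro j s
    have e : s = 2 * j + (s - 2 * j) := by ring
    rw [e, rotd]
    obtain ⟨i, h1, h2, h3⟩ := cover (s - 2 * j)
    rw [← h3]
    rcases h1.eq_or_lt with h4 | h4
    · rw [← h4, dist_self]; exact dist_nonneg
    · exact pl k (by omega) le_rfl i h4 h2
  have eqr : ∀ j : ℤ, k - 1 ≤ j → j ≤ k → dist (P 0) (P j) = r := fun j h1 h2 =>
    le_antisymm (by simpa using ler 0 j) (pl j h1 h2 k (by omega) (by omega))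
  have hdiam : Metric.diam R = r := by
    apply le_antisymm
    · apply Metric.diam_le_of_forall_dist_le dist_nonneg
      rw [← hX]
      rintro _ ⟨a, rfl⟩ _ ⟨b, rfl⟩
      exact ler a _
    · rw [← eqr (2 * ((k / 2 : ℕ) : ℤ)) (by omega) (by omega)]
      exact Metric.dist_le_diam_of_mem (Set.finite_range _).isBounded (by simpa using mX 0) (mX _)
  obtain ⟨j0, hj0⟩ : (t : ℂ) * Complex.exp ((Real.pi : ℂ) * Complex.I / (k : ℂ)) ∈
      Set.range (fun j : Fin k => P (2 * (j : ℕ) + 1)) := by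
    rw [hY']; exact ⟨⟨0, by omega⟩, by simp⟩
  simp only at hj0
  refine ⟨t, t0, fun j => ?_, ?_, ?_⟩
  · obtain ⟨a, ha⟩ : Complex.exp (2 * (Real.pi : ℂ) * Complex.I * (((j : ℕ) : ℂ)) / (k : ℂ)) ∈
      Set.range (fun j : Fin k => P (2 * (j : ℕ))) := by rw [hX]; exact ⟨j, rfl⟩
    simp only at ha
    rw [← hj0, ← ha, hdiam, ← dist_eq, dist_comm]; exact ler _ _
  · obtain ⟨j, hj⟩ := mX (j0 + k - (k - 1) / 2)
    refine ⟨j, ?_⟩
    simp only at hj
    rw [hj, ← hj0, hdiam, ← dist_eq, dist_comm, ← per (2 * ((j0 : ℕ) : ℤ) + 1),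
      ← eqr (2 * (((k - 1) / 2 : ℕ) : ℤ) + 1) (by omega) (by omega), ← rotd (j0 + k - (k - 1) / 2)]
    congr 2; omega
  · ext z
    constructor
    · rintro ⟨s, rfl⟩
      obtain ⟨i, h1, h2, h3⟩ := cover s
      rw [← h3]
      rcases Nat.even_or_odd' i.toNat with ⟨m, hm | hm⟩
      · left; rw [show i = 2 * (m : ℕ) by omega]; exact mX m
      · right; rw [show i = 2 * (m : ℕ) + 1 by omega]; exact mY m
    · rintro (hz | hz)
      · obtain ⟨a, rfl⟩ := hX.symm.subset hz
        exact ⟨_, rfl⟩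
      · obtain ⟨a, rfl⟩ := hY'.symm.subset hz
        exact ⟨_, rfl⟩

lemma rhombus {g1 g2 : ℂ} (h1 : ‖g2‖ = 1) (h2 : ‖g2 - 1‖ = 1) (h3 : 0 < g2.im)
    (h4 : ‖g1 - 1‖ = 1) (h5 : ‖g1 - g2‖ = 1) (h6 : g1 ≠ 0) :
    g2 = Complex.exp ((Real.pi : ℂ) * Complex.I / 3) ∧
      g1 = 1 + Complex.exp ((Real.pi : ℂ) * Complex.I / 3) := by
  have e : g2 = Complex.exp ((Real.pi : ℂ) * Complex.I / 3) := by
    have a : (Real.pi : ℂ) * Complex.I / 3 = ((Real.pi / 3 : ℝ) : ℂ) * Complex.I := by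
      push_cast; ring
    have e1 := Complex.sq_norm g2
    have e2 := Complex.sq_norm (g2 - 1)
    rw [h1] at e1; rw [h2] at e2
    simp only [normSq_apply, sub_re, sub_im, one_re, one_im] at e1 e2
    have hre : g2.re = 1 / 2 := by nlinarith
    have s3 : (√3 : ℝ) ^ 2 = 3 := Real.sq_sqrt (by norm_num)
    have s4 : 0 < (√3 : ℝ) := by positivity
    have him : (g2.im - √3 / 2) * (g2.im + √3 / 2) = 0 := by rw [hre] at e1; nlinarith
    rw [a]
    apply Complex.ext
    · rw [exp_ofReal_mul_I_re, Real.cos_pi_div_three, hre]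
    · rw [exp_ofReal_mul_I_im, Real.sin_pi_div_three]
      rcases mul_eq_zero.1 him with x | x <;> linarith
  refine ⟨e, ?_⟩
  rw [← e]
  have e1 := Complex.sq_norm g2
  have e2 := Complex.sq_norm (g2 - 1)
  have e3 := Complex.sq_norm (g1 - 1)
  have e4 := Complex.sq_norm (g1 - g2)
  rw [h1] at e1; rw [h2] at e2; rw [h4] at e3; rw [h5] at e4
  simp only [normSq_apply, sub_re, sub_im, one_re, one_im] at e1 e2 e3 e4
  have hre : g2.re = 1 / 2 := by nlinarith
  rw [hre] at e1 e4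
  have b1 : g1.re = 2 * g2.im * g1.im := by nlinarith
  have b2 : g1.im * (g1.im - g2.im) = 0 := by
    rw [b1] at e3
    have : g2.im * g2.im = 3 / 4 := by linarith
    linear_combination (-1 / 4) * e3 - g1.im ^ 2 * this
  rcases mul_eq_zero.1 b2 with x | x
  · exfalso; apply h6; apply Complex.ext
    · rw [b1, x]; simp
    · simpa using x
  · apply Complex.ext
    · simp only [add_re, one_re]; rw [b1, hre]; have : g1.im = g2.im := by linarith
      rw [this]; linarith
    · simp only [add_im, one_im]; linarith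

end Pool.Agent.Lib.MP_990519_co
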