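import Pool.Agent.Lib.MP_990519_co.Geom
import Pool.Agent.Lib.MP_990519_co.Comb

namespace Pool.Agent.Lib.MP_990519_co

open Finset

lemma kalm2 {n : ℕ} {p : ℤ → ℂ}
    (ho : ∀ i j k : ℤ, i < j → j < k → k < i + n → 0 < ori (p i) (p j) (p k))
    (i j k l : ℤ) (h1 : i < j) (h2 : j < k) (h3 : k < l) (h4 : l < i + n) :
    dist (p j) (p k) + dist (p i) (p l) < dist (p i) (p k) + dist (p j) (p l) := by
  have := kalm (a := p j) (b := p k) (c := p l) (d := p i) (ho j k l h2 h3 (by omega))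
    (by rw [← ori_cyc]; exact ho i j k h1 h2 (by omega))
    (by rw [← ori_cyc]; exact ho i j l h1 (by omega) h4)
    (by rw [← ori_cyc]; exact ho i k l (by omega) h3 h4)
  rw [dist_comm (p l) (p i), dist_comm (p k) (p i)] at this
  linarith

theorem structure_thm (n : ℕ) (hn : 3 ≤ n) (S : Finset ℂ) (hc : S.card = n)
    (hconv : ConvexIndependent ℝ (fun p : (S : Set ℂ) => (p : ℂ)))
    (hcl : (∀ x ∈ S, ∀ a ∈ S, ∀ b ∈ S, ∀ c ∈ S, a ≠ b → a ≠ c → b ≠ c →
      dist x a = dist x b → dist x a = dist x c → ∀ z ∈ S, dist x z ≤ dist x a) ∨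
      n * (n + 1) ≤ (∑ x ∈ S, {y : ℂ | y ∈ S ∧ ∀ z ∈ S, dist x z ≤ dist x y}.ncard) +
        2 * ∑ x ∈ S, ((fun y : ℂ => dist x y) '' ((S : Set ℂ) \ {x})).ncard) :
    n.choose 2 ≤ (∑ x ∈ S, ((fun y : ℂ => dist x y) '' ((S : Set ℂ) \ {x})).ncard) ∧
    ((∑ x ∈ S, ((fun y : ℂ => dist x y) '' ((S : Set ℂ) \ {x})).ncard) = n.choose 2 →
      ∃ (p : ℤ → ℂ) (τ : ℤ → ℤ), (∀ i, p i ∈ S) ∧
        (∀ x ∈ S, ∀ l : ℤ, ∃ i, l ≤ i ∧ i < l + n ∧ p i = x) ∧
        (∀ i : ℤ, p (i + n) = p i) ∧ (∀ i j : ℤ, i < j → j < i + n → p i ≠ p j) ∧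
        (∀ i j k : ℤ, i < j → j < k → k < i + n → 0 < ori (p i) (p j) (p k)) ∧
        ∀ l : ℤ, 1 ≤ τ l ∧ τ l + τ (l + 1) + 1 = n ∧ τ l ≤ τ (l + 1) + 1 ∧
          (∀ s : ℤ, 1 ≤ s → s ≤ τ l → dist (p l) (p (l + s)) = dist (p l) (p (l - s))) ∧
          (∀ j : ℤ, l + τ l ≤ j → j ≤ l + 1 + τ (l + 1) → ∀ z : ℤ, l < z → z < l + n →
            dist (p l) (p z) ≤ dist (p l) (p j))) := by
  classical
  obtain ⟨p, hS, cov, per, inj, ho⟩ := exists_cyclic (by omega) hc hconv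
  have inj' : ∀ l i j : ℤ, l ≤ i → i < l + n → l ≤ j → j < l + n → p i = p j → i = j := by
    intro l i j h1 h2 h3 h4 e
    rcases lt_trichotomy i j with h | h | h
    · exact absurd e (inj i j h (by omega))
    · exact h
    · exact absurd e.symm (inj j i h (by omega))
  set T := ∑ x ∈ S, ((fun y : ℂ => dist x y) '' ((S : Set ℂ) \ {x})).ncard with hT
  have one : ∀ i : ℤ, ((Ioo i (i + n)).image (fun j => dist (p i) (p j))).card =
      ((fun y : ℂ => dist (p i) y) '' ((S : Set ℂ) \ {p i})).ncard := by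
    intro i
    rw [← Set.ncard_coe_finset]
    congr 1
    ext v
    simp only [coe_image, coe_Ioo, Set.mem_image, Set.mem_Ioo, Set.mem_diff, mem_coe,
      Set.mem_singleton_iff]
    constructor
    · rintro ⟨j, ⟨h1, h2⟩, rfl⟩
      exact ⟨p j, ⟨hS j, (inj i j h1 h2).symm⟩, rfl⟩
    · rintro ⟨y, ⟨h1, h2⟩, rfl⟩
      obtain ⟨j, a1, a2, rfl⟩ := cov y h1 i
      exact ⟨j, ⟨lt_of_le_of_ne a1 (fun e => h2 (by rw [e])), a2⟩, rfl⟩
  have hsum : ∀ l : ℤ, ∑ i ∈ range n,
      ((Ioo (l + i) (l + i + n)).image (fun j => dist (p (l + i)) (p j))).card = T := by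
    intro l
    refine sum_bij (fun i _ => p (l + i)) (fun i _ => hS _) ?_ ?_ (fun i _ => one _)
    · intro a ha b hb e
      rw [mem_range] at ha hb
      have := inj' l _ _ (by omega) (by omega) (by omega) (by omega) e
      omega
    · intro x hx
      obtain ⟨j, a1, a2, rfl⟩ := cov x hx l
      exact ⟨(j - l).toNat, mem_range.2 (by omega), by congr 1; omega⟩
  set F := ∑ x ∈ S, {y : ℂ | y ∈ S ∧ ∀ z ∈ S, dist x z ≤ dist x y}.ncard with hF
  have two : ∀ i : ℤ, ((Ioo i (i + n)).filter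
      (fun j => ∀ z ∈ Ioo i (i + n), dist (p i) (p z) ≤ dist (p i) (p j))).card =
      {y : ℂ | y ∈ S ∧ ∀ z ∈ S, dist (p i) z ≤ dist (p i) y}.ncard := by
    intro i
    rw [← Set.ncard_coe_finset, ← Set.InjOn.ncard_image (f := p)]
    · congr 1
      ext v
      simp only [coe_filter, mem_Ioo, Set.mem_image, Set.mem_setOf_eq]
      constructor
      · rintro ⟨j, ⟨⟨h1, h2⟩, h3⟩, rfl⟩
        refine ⟨hS j, fun z hz => ?_⟩
        obtain ⟨u, a1, a2, rfl⟩ := cov z hz i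
        rcases a1.eq_or_lt with rfl | a3
        · rw [dist_self]; exact dist_nonneg
        · exact h3 u ⟨a3, a2⟩
      · rintro ⟨h1, h2⟩
        obtain ⟨j, a1, a2, rfl⟩ := cov v h1 i
        refine ⟨j, ⟨⟨lt_of_le_of_ne a1 ?_, a2⟩, fun z _ => h2 _ (hS z)⟩, rfl⟩
        rintro rfl
        have := h2 _ (hS (i + 1))
        rw [dist_self] at this
        exact inj i (i + 1) (by omega) (by omega) (dist_le_zero.1 this)
    · intro u hu v hv e
      have hu := mem_Ioo.1 (mem_filter.1 hu).1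
      have hv := mem_Ioo.1 (mem_filter.1 hv).1
      exact inj' i _ _ (by omega) (by omega) (by omega) (by omega) e
  have hsum2 : ∀ l : ℤ, ∑ i ∈ range n, ((Ioo (l + i) (l + i + n)).filter
      (fun j => ∀ z ∈ Ioo (l + i) (l + i + n),
        dist (p (l + i)) (p z) ≤ dist (p (l + i)) (p j))).card = F := by
    intro l
    refine sum_bij (fun i _ => p (l + i)) (fun i _ => hS _) ?_ ?_ (fun i _ => two _)
    · intro a ha b hb e
      rw [mem_range] at ha hb
      have := inj' l _ _ (by omega) (by omega) (by omega) (by omega) e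
      omega
    · intro x hx
      obtain ⟨j, a1, a2, rfl⟩ := cov x hx l
      exact ⟨(j - l).toNat, mem_range.2 (by omega), by congr 1; omega⟩
  have hFT : n * (n + 1) ≤ F + 2 * T := by
    rcases hcl with hcl | hcl
    · rw [← hsum 0, ← hsum2 0, mul_sum, ← sum_add_distrib]
      have := card_nsmul_le_sum (range n) _ (n + 1) (fun (i : ℕ) _ => le_trans
        (by rw [Int.card_Ioo]; omega)
        (cnt (Ioo (0 + (i : ℤ)) (0 + i + n)) ⟨0 + i + 1, by rw [mem_Ioo]; omega⟩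
          (fun j => dist (p (0 + i)) (p j)) (fun a b c ha hb hc' h1 h2 h3 e1 e2 z _ => by
            rw [mem_Ioo] at ha hb hc'
            exact hcl _ (hS _) _ (hS a) _ (hS b) _ (hS c)
              (fun e => h1 (inj' (0 + i) _ _ (by omega) (by omega) (by omega) (by omega) e))
              (fun e => h2 (inj' (0 + i) _ _ (by omega) (by omega) (by omega) (by omega) e))
              (fun e => h3 (inj' (0 + i) _ _ (by omega) (by omega) (by omega) (by omega) e))
              e1 e2 _ (hS z))))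
      rw [card_range, smul_eq_mul] at this
      exact this
    · exact hcl
  have key := comb n hn (fun i j => dist (p i) (p j)) T F (fun i j => by simp only [per])
    (kalm2 ho) hsum hsum2 (by
      have : ((n * (n + 1) : ℕ) : ℤ) ≤ ((F + 2 * T : ℕ) : ℤ) := by exact_mod_cast hFT
      push_cast at this; linarith)
  have ch : (n : ℤ) * n = 2 * (n.choose 2 : ℕ) + n := by
    have := Nat.cast_choose_two ℚ n
    have h2 : (n : ℚ) * n = 2 * (n.choose 2 : ℕ) + n := by rw [this]; ring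
    exact_mod_cast h2
  refine ⟨by have := key.1; omega, fun e => ?_⟩
  obtain ⟨τ, hτ⟩ := key.2 (by rw [e]; exact ch)
  refine ⟨p, τ, hS, cov, per, inj, ho, fun l => ⟨(hτ l).1, (hτ l).2.1, (hτ l).2.2.1, ?_, ?_⟩⟩
  · intro s h1 h2
    have := (hτ l).2.2.2.1 s h1 h2
    rw [this, ← per (l - s)]; congr 2; ring
  · intro j h1 h2 z h3 h4
    exact (hτ l).2.2.2.2 j h1 h2 z (mem_Ioo.2 ⟨h3, h4⟩)

end Pool.Agent.Lib.MP_990519_co
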