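import Mathlib

namespace Pool.Agent.Lib.MP_990519_co

/-- Twice the signed area of the triangle `a b c`. -/
def ori (a b c : ℂ) : ℝ := (b.re - a.re) * (c.im - a.im) - (b.im - a.im) * (c.re - a.re)

lemma ori_cyc (a b c : ℂ) : ori a b c = ori b c a := by unfold ori; ring

lemma ori_swap (a b c : ℂ) : ori a c b = - ori a b c := by unfold ori; ring

lemma not_mem_hull {S : Finset ℂ}
    (h : ConvexIndependent ℝ (fun p : (S : Set ℂ) => (p : ℂ))) {x a b c : ℂ}
    (hx : x ∈ S) (ha : a ∈ S) (hb : b ∈ S) (hc : c ∈ S) (hxa : a ≠ x) (hxb : b ≠ x) (hxc : c ≠ x)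
    {α β γ : ℝ} (h1 : 0 ≤ α) (h2 : 0 ≤ β) (h3 : 0 ≤ γ) (hs : 0 < α + β + γ)
    (hre : (α + β + γ) * x.re = α * a.re + β * b.re + γ * c.re)
    (him : (α + β + γ) * x.im = α * a.im + β * b.im + γ * c.im) : False := by
  have key := (convexIndependent_set_iff_notMem_convexHull_diff.1 h) x (by exact_mod_cast hx)
  apply key
  have hcv : Convex ℝ (convexHull ℝ ((S : Set ℂ) \ {x})) := convex_convexHull ℝ _
  have m : ∀ y ∈ S, y ≠ x → y ∈ convexHull ℝ ((S : Set ℂ) \ {x}) := fun y hy hyx =>
    subset_convexHull ℝ _ ⟨by exact_mod_cast hy, by simpa using hyx⟩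
  have := hcv.sum_mem (t := (Finset.univ : Finset (Fin 3)))
    (w := ![α / (α + β + γ), β / (α + β + γ), γ / (α + β + γ)]) (z := ![a, b, c])
    (by intro i _; fin_cases i <;> simp <;> positivity)
    (by simp [Fin.sum_univ_three]; field_simp)
    (by intro i _; fin_cases i
        · exact m a ha hxa
        · exact m b hb hxb
        · exact m c hc hxc)
  have e : ∑ i : Fin 3, ![α / (α + β + γ), β / (α + β + γ), γ / (α + β + γ)] i •
      ![a, b, c] i = x := by
    rw [Fin.sum_univ_three]
    show (α / (α + β + γ)) • a + (β / (α + β + γ)) • b + (γ / (α + β + γ)) • c = x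
    apply Complex.ext
    · simp only [Complex.add_re, Complex.smul_re, smul_eq_mul]; field_simp; linarith
    · simp only [Complex.add_im, Complex.smul_im, smul_eq_mul]; field_simp; linarith
  rwa [e] at this

lemma ori_ne {S : Finset ℂ}
    (h : ConvexIndependent ℝ (fun p : (S : Set ℂ) => (p : ℂ))) {x a b : ℂ}
    (hx : x ∈ S) (ha : a ∈ S) (hb : b ∈ S) (hxa : a ≠ x) (hxb : b ≠ x) (hab : a ≠ b) :
    ori x a b ≠ 0 := by
  intro h0
  unfold ori at h0
  set u1 := a.re - x.re with hu1
  set u2 := a.im - x.im with hu2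
  set v1 := b.re - x.re with hv1
  set v2 := b.im - x.im with hv2
  have hu : 0 < u1 ^ 2 + u2 ^ 2 := by
    by_contra hh
    apply hxa
    have : u1 = 0 := by nlinarith [sq_nonneg u1, sq_nonneg u2]
    have : u2 = 0 := by nlinarith [sq_nonneg u1, sq_nonneg u2]
    apply Complex.ext <;> linarith
  set N := u1 ^ 2 + u2 ^ 2 with hN
  set D := u1 * v1 + u2 * v2 with hD
  have e1 : N * v1 = D * u1 := by rw [hN, hD]; linear_combination (-u2) * h0
  have e2 : N * v2 = D * u2 := by rw [hN, hD]; linear_combination u1 * h0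
  rcases le_total D 0 with h1 | h1
  · exact not_mem_hull h hx ha hb hb hxa hxb hxb (α := -D) (β := N) (γ := 0) (by linarith)
      hu.le le_rfl (by linarith) (by rw [hu1, hv1] at e1; linarith)
      (by rw [hu2, hv2] at e2; linarith)
  · rcases le_total D N with h2 | h2
    · exact not_mem_hull h hb hx ha ha hxb.symm hab hab (α := N - D) (β := D) (γ := 0)
        (by linarith) h1 le_rfl (by linarith) (by rw [hu1, hv1] at e1; linarith)
        (by rw [hu2, hv2] at e2; linarith)
    · exact not_mem_hull h ha hx hb hb hxa.symm hab.symm hab.symm (α := D - N) (β := N) (γ := 0)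
        (by linarith) hu.le le_rfl (by linarith) (by rw [hu1, hv1] at e1; linarith)
        (by rw [hu2, hv2] at e2; linarith)

/-- a list of the points in counterclockwise order -/
lemma exists_fin_order {S : Finset ℂ} {m : ℕ} (hc : S.card = m + 1)
    (h : ConvexIndependent ℝ (fun p : (S : Set ℂ) => (p : ℂ))) :
    ∃ q : Fin (m + 1) → ℂ, (∀ i, q i ∈ S) ∧ (∀ x ∈ S, ∃ i, q i = x) ∧ Function.Injective q ∧
      ∀ i j k, i < j → j < k → 0 < ori (q i) (q j) (q k) := by
  classical
  obtain ⟨x, hx⟩ : S.Nonempty := Finset.card_pos.1 (by omega)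
  let T := {y : ℂ // y ∈ S.erase x}
  have hT : ∀ y : T, y.1 ∈ S ∧ y.1 ≠ x := fun y =>
    ⟨Finset.mem_of_mem_erase y.2, Finset.ne_of_mem_erase y.2⟩
  let r : T → T → Prop := fun a b => 0 < ori x a.1 b.1
  have tr : ∀ a b c : T, r a b → r b c → r a c := by
    intro a b c h1 h2
    by_contra h3
    have h3' : 0 ≤ - ori x a.1 c.1 := by simpa [r] using h3
    refine not_mem_hull h hx (hT a).1 (hT b).1 (hT c).1 (hT a).2 (hT b).2 (hT c).2
      (α := ori x b.1 c.1) (β := - ori x a.1 c.1) (γ := ori x a.1 b.1) (le_of_lt h2) h3'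
      (le_of_lt h1) (by have : 0 < ori x a.1 b.1 := h1; have : 0 < ori x b.1 c.1 := h2; linarith)
      (by unfold ori; ring) (by unfold ori; ring)
  haveI sto : IsStrictTotalOrder T r :=
    { trichotomous := by
        intro a b h1 h2
        by_contra hab
        have hne : a.1 ≠ b.1 := fun e => hab (Subtype.ext e)
        have := ori_ne h hx (hT a).1 (hT b).1 (hT a).2 (hT b).2 hne
        have s := ori_swap x a.1 b.1
        simp only [r, not_lt] at h1 h2
        apply this; linarith
      irrefl := by intro a; simp [r, ori]; exact le_of_eq (by ring)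
      trans := tr }
  letI lo : LinearOrder T := linearOrderOfSTO r
  have hcT : Fintype.card T = m := by
    simp only [T, Fintype.card_coe]; rw [Finset.card_erase_of_mem hx]; omega
  let e : Fin m ≃o T := Fintype.orderIsoFinOfCardEq T hcT
  have he : ∀ i j : Fin m, i < j → 0 < ori x (e i).1 (e j).1 := fun i j hij => e.strictMono hij
  refine ⟨Fin.cons x (fun i => (e i).1), ?_, ?_, ?_, ?_⟩
  · intro i
    refine Fin.cases ?_ (fun i => ?_) i
    · simpa using hx
    · simpa using (hT (e i)).1
  · intro y hy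
    by_cases hyx : y = x
    · exact ⟨0, by simp [hyx]⟩
    · exact ⟨(e.symm ⟨y, Finset.mem_erase.2 ⟨hyx, hy⟩⟩).succ, by simp⟩
  · rw [Fin.cons_injective_iff]
    refine ⟨?_, fun i j hij => e.injective (Subtype.ext hij)⟩
    rintro ⟨i, hi⟩
    exact (hT (e i)).2 hi
  · intro i j k hij hjk
    obtain ⟨j, rfl⟩ := Fin.exists_succ_eq.2 (Fin.ne_zero_of_lt hij)
    obtain ⟨k, rfl⟩ := Fin.exists_succ_eq.2 (Fin.ne_zero_of_lt hjk)
    have hjk' : j < k := Fin.succ_lt_succ_iff.1 hjk
    revert hij
    refine Fin.cases ?_ (fun i => ?_) i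
    · intro _; simpa using he j k hjk'
    · intro hij
      have hij' : i < j := Fin.succ_lt_succ_iff.1 hij
      simp only [Fin.cons_succ]
      by_contra h3
      have h1 := he i j hij'
      have h2 := he j k hjk'
      have h4 := he i k (hij'.trans hjk')
      have n1 : (e i).1 ≠ (e j).1 := fun z => hij'.ne (e.injective (Subtype.ext z))
      have n2 : (e k).1 ≠ (e j).1 := fun z => hjk'.ne' (e.injective (Subtype.ext z))
      refine not_mem_hull h (hT (e j)).1 hx (hT (e i)).1 (hT (e k)).1 (hT (e j)).2.symm n1 n2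
        (α := - ori (e i).1 (e j).1 (e k).1) (β := ori x (e j).1 (e k).1)
        (γ := ori x (e i).1 (e j).1) (by linarith [not_lt.1 h3]) h2.le h1.le ?_ ?_ ?_
      · have : - ori (e i).1 (e j).1 (e k).1 + ori x (e j).1 (e k).1 + ori x (e i).1 (e j).1
            = ori x (e i).1 (e k).1 := by unfold ori; ring
        linarith
      · unfold ori; ring
      · unfold ori; ring

/-- periodic counterclockwise enumeration -/
lemma exists_cyclic {S : Finset ℂ} {n : ℕ} (hn : 1 ≤ n) (hc : S.card = n)
    (h : ConvexIndependent ℝ (fun p : (S : Set ℂ) => (p : ℂ))) :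
    ∃ p : ℤ → ℂ, (∀ i, p i ∈ S) ∧ (∀ x ∈ S, ∀ l : ℤ, ∃ i, l ≤ i ∧ i < l + n ∧ p i = x) ∧
      (∀ i : ℤ, p (i + n) = p i) ∧ (∀ i j : ℤ, i < j → j < i + n → p i ≠ p j) ∧
      ∀ i j k : ℤ, i < j → j < k → k < i + n → 0 < ori (p i) (p j) (p k) := by
  obtain ⟨m, rfl⟩ : ∃ m, n = m + 1 := ⟨n - 1, by omega⟩
  obtain ⟨q, h1, h2, h3, h4⟩ := exists_fin_order hc h
  have hN : (0 : ℤ) < ((m + 1 : ℕ) : ℤ) := by positivity
  set N : ℤ := ((m + 1 : ℕ) : ℤ) with hNd
  have b1 : ∀ i : ℤ, 0 ≤ i % N := fun i => Int.emod_nonneg _ hN.ne'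
  have b2 : ∀ i : ℤ, i % N < N := fun i => Int.emod_lt_of_pos _ hN
  let φ : ℤ → Fin (m + 1) := fun i => ⟨(i % N).toNat, by have := b1 i; have := b2 i; omega⟩
  have hφ : ∀ i, ((φ i : ℕ) : ℤ) = i % N := fun i => by simp [φ, b1 i]
  have lt : ∀ i j, i % N < j % N → φ i < φ j := fun i j hh => by
    have := hφ i; have := hφ j; rw [Fin.lt_def]; omega
  have md : ∀ i j : ℤ, i < j → j < i + N →
      j % N = i % N + (j - i) ∨ j % N = i % N + (j - i) - N := by
    intro i j hij hji
    have e1 := Int.emod_add_mul_ediv i N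
    have := b1 i; have := b2 i
    by_cases hh : i % N + (j - i) < N
    · left
      have : j = (i % N + (j - i)) + N * (i / N) := by linarith
      rw [this, Int.add_mul_emod_self_left, Int.emod_eq_of_lt (by omega) hh]; omega
    · right
      have : j = (i % N + (j - i) - N) + N * (i / N + 1) := by linarith
      rw [this, Int.add_mul_emod_self_left, Int.emod_eq_of_lt (by omega) (by omega)]; linarith
  refine ⟨fun i => q (φ i), fun i => h1 _, ?_, ?_, ?_, ?_⟩
  · intro x hx l
    obtain ⟨i, rfl⟩ := h2 x hx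
    refine ⟨l + ((i : ℕ) - l) % N, by linarith [b1 ((i : ℕ) - l)],
      by linarith [b2 ((i : ℕ) - l)], ?_⟩
    show q (φ _) = q i
    congr 1
    apply Fin.ext
    have := hφ (l + ((i : ℕ) - l) % N)
    have e : (l + ((i : ℕ) - l) % N) % N = (i : ℕ) := by
      rw [Int.add_emod_emod]
      have : l + ((i : ℕ) - l) = ((i : ℕ) : ℤ) := by ring
      rw [this, Int.emod_eq_of_lt (by positivity) (by have := i.2; omega)]
    omega
  · intro i
    have : φ (i + N) = φ i := by
      apply Fin.ext
      have := hφ (i + N); have := hφ i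
      have : (i + N) % N = i % N := by simp
      omega
    simp only [this]
  · intro i j hij hji e
    have := h3 e
    have a1 := hφ i; have a2 := hφ j
    rw [this] at a1
    rcases md i j hij hji with hh | hh <;> omega
  · intro i j k hij hjk hk
    have := b1 j; have := b1 k; have := b2 j; have := b2 k
    rcases md i j hij (by omega) with h5 | h5 <;> rcases md i k (by omega) hk with h6 | h6
    · exact h4 _ _ _ (lt _ _ (by omega)) (lt _ _ (by omega))
    · rw [ori_cyc, ori_cyc]; exact h4 _ _ _ (lt _ _ (by omega)) (lt _ _ (by omega))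
    · omega
    · rw [ori_cyc]; exact h4 _ _ _ (lt _ _ (by omega)) (lt _ _ (by omega))

/-- the diagonals of a strictly convex quadrilateral are longer than two opposite sides -/
lemma kalm {a b c d : ℂ} (h1 : 0 < ori a b c) (h2 : 0 < ori a b d) (h3 : 0 < ori a c d)
    (h4 : 0 < ori b c d) : dist a b + dist c d < dist a c + dist b d := by
  have hs : ori a b d + ori b c d = ori a b c + ori a c d := by unfold ori; ring
  set W := ori a b c + ori a c d with hW
  have hW0 : 0 < W := by linarith
  set s := ori a b d / W with hsd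
  set t := ori a b c / W with htd
  have s0 : 0 < s := by positivity
  have s1 : s ≤ 1 := by rw [hsd, div_le_one hW0]; linarith
  have t0 : 0 < t := by positivity
  have t1 : t ≤ 1 := by rw [htd, div_le_one hW0]; linarith
  set o : ℂ := AffineMap.lineMap a c s with ho
  have ore : o.re = a.re + s * (c.re - a.re) := by
    simp [ho, AffineMap.lineMap_apply]; ring
  have oim : o.im = a.im + s * (c.im - a.im) := by
    simp [ho, AffineMap.lineMap_apply]; ring
  have ho2 : o = AffineMap.lineMap b d t := by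
    apply Complex.ext
    · rw [ore]; simp [AffineMap.lineMap_apply]; rw [hsd, htd]; field_simp
      rw [hW]; unfold ori; ring
    · rw [oim]; simp [AffineMap.lineMap_apply]; rw [hsd, htd]; field_simp
      rw [hW]; unfold ori; ring
  have w1 : Wbtw ℝ a o c := ⟨s, ⟨s0.le, s1⟩, rfl⟩
  have w2 : Wbtw ℝ b o d := ⟨t, ⟨t0.le, t1⟩, ho2.symm⟩
  have d1 := w1.dist_add_dist
  have d2 := w2.dist_add_dist
  have t2 : dist c d ≤ dist o c + dist o d := dist_triangle_left _ _ _
  have t3 : dist a b < dist a o + dist o b := by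
    refine lt_of_le_of_ne (dist_triangle _ _ _) (fun e => ?_)
    obtain ⟨τ, _, hτ⟩ := dist_add_dist_eq_iff.1 e.symm
    have r1 : o.re = a.re + τ * (b.re - a.re) := by
      rw [← hτ]; simp [AffineMap.lineMap_apply]; ring
    have r2 : o.im = a.im + τ * (b.im - a.im) := by
      rw [← hτ]; simp [AffineMap.lineMap_apply]; ring
    have : s * ori a b c = 0 := by
      unfold ori
      have e1 : s * (c.re - a.re) = τ * (b.re - a.re) := by linarith
      have e2 : s * (c.im - a.im) = τ * (b.im - a.im) := by linarith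
      linear_combination (b.re - a.re) * e2 - (b.im - a.im) * e1
    have : 0 < s * ori a b c := by positivity
    linarith
  rw [dist_comm o b] at t3
  linarith

end Pool.Agent.Lib.MP_990519_co
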